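import Pool.Agent.Y231.RF.Main

set_option autoImplicit false
set_option linter.unusedSectionVars false
set_option linter.unusedVariables false

/-! # Products of powers of forms over ideals with Rees divisors: the monodromy conjectures -/

namespace Pool.Agent.Y231.RF

open MvPowerSeries Pool.Agent.W574.SM Pool.Agent.W574.LM Pool.Agent.W574.HS Pool.Agent.TH192.DT
  Pool.Agent.H628R4.TP Pool.Agent.TH187.SA

/-- The numbers `ν`: `k i + 1` for the component `E_i`, where `k i` is its multiplicity in the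
relative canonical divisor, and `1` for the strict transforms of the `F_t = 0`. -/
def nuR {I : Type} (k : I → ℕ) (T : Type) : I ⊕ T → ℕ := Sum.elim (fun i => k i + 1) fun _ => 1

/-- The multiplicities of `∏ t, F_t ^ a t`: `∑ t, a t * m i t` along `E_i`, where `m i t` is the
order of the ideal `I_t` along `E_i`, and `a t` along the strict transform of `F_t = 0`. -/
def mulR {I T : Type} [Fintype T] (a : T → ℕ) (m : I → T → ℕ) : I ⊕ T → ℕ :=
  Sum.elim (fun i => ∑ t, a t * m i t) a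

theorem nuR_pos {I T : Type} (k : I → ℕ) (x : I ⊕ T) : 0 < nuR k T x := by
  rcases x with i | t
  · exact Nat.succ_pos _
  · exact one_pos

section General

variable {σ T : Type} [Fintype σ] [DecidableEq σ] [Fintype T] [DecidableEq T] {κ : T → Type}
  [∀ t, Fintype (κ t)] [∀ t, DecidableEq (κ t)]

theorem rees_global0 (a : T → ℕ) (g : (t : T) → κ t → MvPolynomial σ ℂ) (b : Polynomial ℂ)
    (hb : IsBFunction (powProd a g) b) (k : ℕ) (m : T → ℕ)
    (hE : ∃ E : Chart g, E.k = k ∧ E.m = m ∧ E.IsRees fun t => a t ≠ 0)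
    (hpos : 0 < ∑ t, a t * m t) : b.eval (-((k : ℂ) + 1) / (∑ t, a t * m t : ℕ)) = 0 := by
  obtain ⟨E, rfl, rfl, hR⟩ := hE
  have h := rees_global a g b hb E hR 0 hpos 1 ⟨1, by rw [map_one]; exact one_ne_zero,
    by rw [map_one, pow_zero, one_mul]⟩
  rw [Nat.cast_zero, add_zero] at h
  exact h

/-- a pair of numbers of a component, in terms of the components -/
theorem pairs_cases {I : Type} [Fintype I] (a : T → ℕ) (k : I → ℕ) (m : I → T → ℕ)
    (q : ℤ × ℤ) (hq : q ∈ pairs (nuR k T) (mulR a m)) :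
    (∃ i, 0 < ∑ t, a t * m i t ∧ q = (-((k i : ℤ) + 1), ((∑ t, a t * m i t : ℕ) : ℤ))) ∨
      ∃ t, 0 < a t ∧ q = (-1, (a t : ℤ)) := by
  obtain ⟨x, hx, rfl⟩ := Finset.mem_image.1 hq
  have h2 := (Finset.mem_filter.1 hx).2
  rcases x with i | t
  · left
    refine ⟨i, h2, ?_⟩
    simp [nuR, mulR]
  · right
    refine ⟨t, h2, ?_⟩
    simp [nuR, mulR]

theorem roots_global {I : Type} [Fintype I] (a : T → ℕ) (g : (t : T) → κ t → MvPolynomial σ ℂ)
    (hg : ∀ t, ∃ j, g t j ≠ 0) (k : I → ℕ) (m : I → T → ℕ)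
    (hE : ∀ i, 0 < ∑ t, a t * m i t →
      ∃ E : Chart g, E.k = k i ∧ E.m = m i ∧ E.IsRees fun t => a t ≠ 0)
    (q : ℤ × ℤ) (hq : q ∈ pairs (nuR k T) (mulR a m)) (b : Polynomial ℂ)
    (hb : IsBFunction (powProd a g) b) : b.eval ((q.1 : ℂ) / q.2) = 0 := by
  rcases pairs_cases a k m q hq with ⟨i, hi, rfl⟩ | ⟨t, ht, rfl⟩
  · have h := rees_global0 a g b hb (k i) (m i) (hE i hi) hi
    push_cast at h ⊢
    exact h
  · have h := (powData_global a g hg b hb).strict t 0 ht
    rw [Nat.cast_zero, add_zero] at h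
    push_cast
    exact h

theorem roots_local {I : Type} [Fintype I] (a : T → ℕ) (g : (t : T) → κ t → MvPolynomial σ ℂ)
    (hg : ∀ t, ∃ j, g t j ≠ 0) (k : I → ℕ) (m : I → T → ℕ)
    (hE : ∀ i, 0 < ∑ t, a t * m i t →
      ∀ H : MvPolynomial σ ℂ, MvPolynomial.constantCoeff H ≠ 0 →
        ∃ E : Chart g, E.k = k i ∧ E.m = m i ∧ (E.IsRees fun t => a t ≠ 0) ∧
          constantCoeff (MvPolynomial.aeval E.ξ H) ≠ 0)
    (q : ℤ × ℤ) (hq : q ∈ pairs (nuR k T) (mulR a m)) (b : Polynomial ℂ)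
    (hb : IsLocalBFunction (powProd a g) b) : b.eval ((q.1 : ℂ) / q.2) = 0 := by
  rcases pairs_cases a k m q hq with ⟨i, hi, rfl⟩ | ⟨t, ht, rfl⟩
  · have h := rees_local a g hg b hb (k i) (m i) (hE i hi) hi
    push_cast at h ⊢
    exact h
  · have h := (powData_local a g hg b hb).strict t 0 ht
    rw [Nat.cast_zero, add_zero] at h
    push_cast
    exact h

end General

section Arr

variable {σ S T I : Type} [Fintype σ] [DecidableEq σ] [Fintype S] [DecidableEq S] [Fintype T]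
  [DecidableEq T] [Fintype I] {κ : S → Type} [∀ s, Fintype (κ s)] [∀ s, DecidableEq (κ s)]

theorem arr_pairs (c : (s : S) → κ s → σ → ℂ) (hc : ∀ s, ∃ j, c s j ≠ 0) (e : T → S → ℕ)
    (a : T → ℕ) (G : I → Submodule ℂ (σ → ℂ))
    (hG : ∀ i, IsReesFlat (fun s => zeros (c s)) (Occurs e a) (G i)) (q : ℤ × ℤ)
    (hq : q ∈ pairs (nuA G T) (mulA (fun s => zeros (c s)) e a G)) :
    q.1 < 0 ∧ 0 < q.2 ∧
      (∀ b : Polynomial ℂ, IsBFunction (powProd a fun t => arrGen c (e t)) b →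
        b.eval ((q.1 : ℂ) / q.2) = 0) ∧
      ∀ b : Polynomial ℂ, IsLocalBFunction (powProd a fun t => arrGen c (e t)) b →
        b.eval ((q.1 : ℂ) / q.2) = 0 :=
  ⟨(pairs_sign _ _ (nuA_pos G hG) q hq).1, (pairs_sign _ _ (nuA_pos G hG) q hq).2,
    fun b hb => pairs_roots _ _ (nuA_pos G hG) b (fun x l hl => pow_arr c e a G hG b
        (powData_global a _ (fun t => arrGen_ne c hc (e t)) b hb) x l hl) q hq,
    fun b hb => pairs_roots _ _ (nuA_pos G hG) b (fun x l hl => pow_arr c e a G hG b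
        (powData_local a _ (fun t => arrGen_ne c hc (e t)) b hb) x l hl) q hq⟩

end Arr

end Pool.Agent.Y231.RF
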