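import Pool.Agent.Y231.RF.Coords

set_option autoImplicit false
set_option linter.unusedSectionVars false
set_option linter.unusedVariables false

/-! # Products of powers of forms over ideals with Rees divisors -/

namespace Pool.Agent.Y231.RF

open MvPowerSeries Pool.Agent.W574.SM Pool.Agent.W574.LM Pool.Agent.W574.HS Pool.Agent.TH192.DT
  Pool.Agent.H628R4.TP

variable {σ τ : Type} [Fintype σ] [DecidableEq σ] [Fintype τ] [DecidableEq τ] {κ : τ → Type}
  [∀ t, Fintype (κ t)] [∀ t, DecidableEq (κ t)]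

/-- A formal chart at a point `p` of a prime divisor `E` over the affine space, for ideals
`I_t = (g t j)_j`: formal power series `ξ i` (the coordinates `x i` of the affine space) in formal
coordinates indexed by `σ`, among them the equation `z` of `E`, such that the Jacobian determinant
of `x = ξ` is `z ^ k` times a unit (so that `k` is the multiplicity of `E` in the relative canonical
divisor) and such that each ideal `I_t` becomes the ideal `(z ^ m t)` at `p`, generated by the
pull-back of `g t (j0 t)`. -/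
structure Chart (g : (t : τ) → κ t → MvPolynomial σ ℂ) where
  /-- the index of the coordinate which defines `E` -/
  z : σ
  /-- the chart -/
  ξ : σ → MvPowerSeries σ ℂ
  /-- the multiplicity of `E` in the relative canonical divisor -/
  k : ℕ
  /-- the orders of the ideals along `E` -/
  m : τ → ℕ
  /-- the indices of generators of minimal order -/
  j0 : (t : τ) → κ t
  jacobian : ∃ U : MvPowerSeries σ ℂ, constantCoeff U ≠ 0 ∧
    (Matrix.of fun t i => pderiv ℂ t (ξ i)).det = X z ^ k * U
  divides : ∀ t j, X z ^ m t ∣ MvPolynomial.aeval ξ (g t j)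
  attained : ∀ t, ∃ U : MvPowerSeries σ ℂ, constantCoeff U ≠ 0 ∧
    MvPolynomial.aeval ξ (g t (j0 t)) = X z ^ m t * U

/-- `E` is a Rees divisor of the product of the ideals `I_t` with `t ∈ A`, and the map from `E` to
the product of the affine space and of the projective spaces of the generators of these ideals is
unramified at `p`: there are functions `w t` which, together with the equation `w z = z` of `E`, are
formal coordinates at `p`, and each of which is the pull-back of a polynomial `q(x)` or of a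
quotient `(∑ j, c_j g s j) / g s (j0 s)`, `s ∈ A`. -/
def Chart.IsRees {g : (t : τ) → κ t → MvPolynomial σ ℂ} (E : Chart g) (A : τ → Prop) : Prop :=
  ∃ w : σ → MvPowerSeries σ ℂ, w E.z = X E.z ∧ (∀ t, constantCoeff (w t) = 0) ∧
    (Matrix.of fun s t => constantCoeff (pderiv ℂ s (w t))).det ≠ 0 ∧
    ∀ t, t ≠ E.z → (∃ q : MvPolynomial σ ℂ, MvPolynomial.aeval E.ξ q = w t) ∨
      ∃ s, A s ∧ ∃ c : κ s → ℂ, ∑ j, c j • MvPolynomial.aeval E.ξ (g s j)
        = MvPolynomial.aeval E.ξ (g s (E.j0 s)) * w t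

/-- The order of `∏ t, I_t ^ a t` along `E`. -/
def Chart.mul {g : (t : τ) → κ t → MvPolynomial σ ℂ} (E : Chart g) (a : τ → ℕ) : ℕ :=
  ∑ t, a t * E.m t

theorem prod_q (a : τ → ℕ) {R : Type} [CommRing R] (x : R) (m : τ → ℕ) :
    ∏ q : Σ t, Fin (a t), x ^ m q.1 = x ^ ∑ t, a t * m t := by
  rw [Finset.prod_pow_eq_pow_sum, Fintype.sum_sigma]
  simp

/-- **The roots from Rees divisors**, for a functional equation of the product of the ideals. -/
theorem rees_prod (a : τ → ℕ) (g : (t : τ) → κ t → MvPolynomial σ ℂ) (b : Polynomial ℂ)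
    (H : MvPolynomial σ ℂ) (hb : IsLocEq H (prodFam fun q : Σ t, Fin (a t) => g q.1) b)
    (E : Chart g) (hE : E.IsRees fun t => a t ≠ 0)
    (hH : constantCoeff (MvPolynomial.aeval E.ξ H) ≠ 0) (l : ℕ) (hl : l < E.mul a)
    (p : MvPolynomial σ ℂ) (hp : ∃ U : MvPowerSeries σ ℂ, constantCoeff U ≠ 0 ∧
      MvPolynomial.aeval E.ξ p = X E.z ^ l * U) :
    b.eval (-((E.k : ℂ) + 1 + l) / (E.mul a : ℕ)) = 0 := by
  classical
  obtain ⟨U0, hU0, hJ⟩ := E.jacobian
  choose U1 hU1 hj0 using E.attained
  obtain ⟨U2, hU2, hp⟩ := hp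
  obtain ⟨w, hwz, hw0, hwdet, htype⟩ := hE
  have hev : ∀ j : (q : Σ t, Fin (a t)) → κ q.1,
      MvPolynomial.aeval E.ξ (prodFam (fun q : Σ t, Fin (a t) => g q.1) j)
        = ∏ q : Σ t, Fin (a t), MvPolynomial.aeval E.ξ (g q.1 (j q)) := by
    intro j
    rw [prodFam, map_prod]
  refine rees_coordsL _ b H hb E.z E.ξ hH E.k (E.mul a) l hl U0
    (∏ q : Σ t, Fin (a t), U1 q.1) U2 hU0 ?_ hU2 hJ (fun q => E.j0 q.1) ?_ ?_ p hp
    w hwz hw0 hwdet ?_
  · rw [map_prod]
    exact Finset.prod_ne_zero_iff.2 fun q _ => hU1 q.1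
  · intro j
    rw [hev, Chart.mul, ← prod_q a (X E.z : MvPowerSeries σ ℂ) E.m]
    exact Finset.prod_dvd_prod_of_dvd _ _ fun q _ => E.divides q.1 (j q)
  · rw [hev, Chart.mul, ← prod_q a (X E.z : MvPowerSeries σ ℂ) E.m, ← Finset.prod_mul_distrib]
    exact Finset.prod_congr rfl fun q _ => hj0 q.1
  · intro t ht
    rcases htype t ht with h | ⟨s, hs, c, hc⟩
    · left; exact h
    · right
      have hpos : 0 < a s := Nat.pos_of_ne_zero hs
      let q0 : Σ t, Fin (a t) := ⟨s, ⟨0, hpos⟩⟩
      -- the family with one index changed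
      refine ⟨fun j => if ∀ q, q ≠ q0 → j q = E.j0 q.1 then c (j q0) else 0, ?_⟩
      have h1 : ∀ j : (q : Σ t, Fin (a t)) → κ q.1,
          (if ∀ q, q ≠ q0 → j q = E.j0 q.1 then c (j q0) else 0) •
            MvPolynomial.aeval E.ξ (prodFam (fun q : Σ t, Fin (a t) => g q.1) j)
          = ∑ i : κ s, if j = Function.update (fun q : Σ t, Fin (a t) => E.j0 q.1) q0 i then
              c i • (MvPolynomial.aeval E.ξ (g s i) *
                ∏ q ∈ Finset.univ.erase q0, MvPolynomial.aeval E.ξ (g q.1 (E.j0 q.1))) else 0 := by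
        intro j
        by_cases hj : ∀ q, q ≠ q0 → j q = E.j0 q.1
        · rw [if_pos hj]
          have h2 : j = Function.update (fun q : Σ t, Fin (a t) => E.j0 q.1) q0 (j q0) := by
            funext q
            by_cases hq : q = q0
            · subst hq; rw [Function.update_self]
            · rw [Function.update_of_ne hq]; exact hj q hq
          rw [Finset.sum_eq_single (j q0)]
          · rw [if_pos h2, hev, ← Finset.mul_prod_erase _ _ (Finset.mem_univ q0)]
            congr 2
            refine Finset.prod_congr rfl fun q hq => ?_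
            rw [hj q (Finset.ne_of_mem_erase hq)]
          · intro i _ hi
            rw [if_neg]
            intro h3
            apply hi
            rw [h3, Function.update_self]
          · intro h; exact absurd (Finset.mem_univ _) h
        · rw [if_neg hj, zero_smul]
          symm
          refine Finset.sum_eq_zero fun i _ => ?_
          rw [if_neg]
          intro h3
          apply hj
          intro q hq
          rw [h3, Function.update_of_ne hq]
      rw [Finset.sum_congr rfl fun j _ => h1 j, Finset.sum_comm]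
      have h2 : ∀ i : κ s, (∑ j : (q : Σ t, Fin (a t)) → κ q.1,
          if j = Function.update (fun q : Σ t, Fin (a t) => E.j0 q.1) q0 i then
              c i • (MvPolynomial.aeval E.ξ (g s i) *
                ∏ q ∈ Finset.univ.erase q0, MvPolynomial.aeval E.ξ (g q.1 (E.j0 q.1))) else 0)
          = c i • MvPolynomial.aeval E.ξ (g s i) *
              ∏ q ∈ Finset.univ.erase q0, MvPolynomial.aeval E.ξ (g q.1 (E.j0 q.1)) := by
        intro i
        rw [Finset.sum_ite_eq' Finset.univ, if_pos (Finset.mem_univ _), smul_mul_assoc]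
      rw [Finset.sum_congr rfl fun i _ => h2 i, ← Finset.sum_mul, hc, hev,
        ← Finset.mul_prod_erase _ _ (Finset.mem_univ q0)]
      ring

/-- **Rees divisors give roots of the Bernstein-Sato polynomial of the product of powers of
forms.** -/
theorem rees_global (a : τ → ℕ) (g : (t : τ) → κ t → MvPolynomial σ ℂ) (b : Polynomial ℂ)
    (hb : IsBFunction (powProd a g) b) (E : Chart g) (hE : E.IsRees fun t => a t ≠ 0)
    (l : ℕ) (hl : l < E.mul a)
    (p : MvPolynomial σ ℂ) (hp : ∃ U : MvPowerSeries σ ℂ, constantCoeff U ≠ 0 ∧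
      MvPolynomial.aeval E.ξ p = X E.z ^ l * U) :
    b.eval (-((E.k : ℂ) + 1 + l) / (E.mul a : ℕ)) = 0 := by
  classical
  obtain ⟨t0, ht0⟩ : ∃ t, a t ≠ 0 := by
    obtain ⟨t, _, ht⟩ := Finset.exists_ne_zero_of_sum_ne_zero
      (by unfold Chart.mul at hl; omega : ∑ t, a t * E.m t ≠ 0)
    exact ⟨t, left_ne_zero_of_mul ht⟩
  obtain ⟨P, hP⟩ := hb
  have h1 := locEq_of_powProd a g t0 ht0 b 1 P (fun s => by rw [one_mul]; exact hP s)
  refine rees_prod a g b _ h1 E hE ?_ l hl p hp
  have h2 : hat (1 : MvPolynomial ((Σ t, κ t) ⊕ σ) ℂ) 0 = 1 := by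
    rw [hat_one, if_pos rfl]
  rw [h2, map_one, map_one]
  exact one_ne_zero

/-- the local version -/
theorem rees_local (a : τ → ℕ) (g : (t : τ) → κ t → MvPolynomial σ ℂ)
    (hg : ∀ t, ∃ j, g t j ≠ 0) (b : Polynomial ℂ) (hb : IsLocalBFunction (powProd a g) b)
    (k : ℕ) (m : τ → ℕ) (hE : ∀ H : MvPolynomial σ ℂ, MvPolynomial.constantCoeff H ≠ 0 →
      ∃ E : Chart g, E.k = k ∧ E.m = m ∧ (E.IsRees fun t => a t ≠ 0) ∧
        constantCoeff (MvPolynomial.aeval E.ξ H) ≠ 0)
    (hpos : 0 < ∑ t, a t * m t) :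
    b.eval (-((k : ℂ) + 1) / (∑ t, a t * m t : ℕ)) = 0 := by
  obtain ⟨t0, ht0⟩ : ∃ t, a t ≠ 0 := by
    obtain ⟨t, _, ht⟩ := Finset.exists_ne_zero_of_sum_ne_zero hpos.ne'
    exact ⟨t, left_ne_zero_of_mul ht⟩
  obtain ⟨H, hH, hHb⟩ := (powData_local a g hg b hb).ideal ⟨t0, ht0⟩
  obtain ⟨E, rfl, rfl, hR, hc⟩ := hE H hH
  have h := rees_prod a g b H hHb E hR hc 0 hpos 1 ⟨1, by rw [map_one]; exact one_ne_zero,
    by rw [map_one, pow_zero, one_mul]⟩
  rw [Nat.cast_zero, add_zero] at h
  exact h

end Pool.Agent.Y231.RF
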