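import Pool.Agent.Y231.RF.Fin

set_option autoImplicit false
set_option linter.unusedSectionVars false
set_option linter.unusedVariables false

/-! # Tuples of forms over ideals with Rees divisors: the topological zeta function in several
variables -/

namespace Pool.Agent.Y231.RF

open MvPolynomial Pool.Agent.W574.SM Pool.Agent.W574.LM Pool.Agent.W574.HS Pool.Agent.TH192.DT
  Pool.Agent.H628R4.TP Pool.Agent.TH187.SA

/-- The linear form `∑ t, N t * s_t + ν`. -/
noncomputable def linF {T : Type} [Fintype T] (ν : ℕ) (N : T → ℕ) : MvPolynomial T ℂ :=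
  ∑ t, C (N t : ℂ) * X t + C (ν : ℂ)

/-- The rational function `∑_J χ_J ∏_{i ∈ J} 1 / (∑ t, N i t * s_t + ν i)`, the sum over the sets `J`
of components of an embedded resolution: the formula for the topological zeta function in several
variables, where `χ_J` is the Euler characteristic of the stratum of `J`. -/
noncomputable def topM {I T : Type} [Fintype I] [Fintype T] (ν : I → ℕ) (N : I → T → ℕ)
    (χ : Finset I → ℤ) : FractionRing (MvPolynomial T ℂ) :=
  ∑ J : Finset I, (χ J : FractionRing (MvPolynomial T ℂ)) *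
    ∏ i ∈ J, (algebraMap (MvPolynomial T ℂ) (FractionRing (MvPolynomial T ℂ))
      (linF (ν i) (N i)))⁻¹

/-- The points at which all denominators of the rational function `Z` vanish, that is the zero set
of the denominator in lowest terms. -/
def PolarLocus {T : Type} (Z : FractionRing (MvPolynomial T ℂ)) : Set (T → ℂ) :=
  {z | ∀ g h : MvPolynomial T ℂ, Z * algebraMap _ _ h = algebraMap _ _ g → eval z h = 0}

theorem linF_ne {T : Type} [Fintype T] (ν : ℕ) (hν : 0 < ν) (N : T → ℕ) : linF ν N ≠ 0 := by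
  intro h
  have h1 := congrArg (eval (0 : T → ℂ)) h
  simp [linF] at h1
  omega

theorem eval_linF {T : Type} [Fintype T] (ν : ℕ) (N : T → ℕ) (z : T → ℂ) :
    eval z (linF ν N) = ∑ t, (N t : ℂ) * z t + ν := by
  simp [linF]

theorem polar_topM {I T : Type} [Fintype I] [Fintype T] (ν : I → ℕ) (hν : ∀ i, 0 < ν i)
    (N : I → T → ℕ) (χ : Finset I → ℤ) (z : T → ℂ) (hz : z ∈ PolarLocus (topM ν N χ)) :
    ∃ i, ∑ t, (N i t : ℂ) * z t + ν i = 0 := by
  classical
  set K := FractionRing (MvPolynomial T ℂ)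
  set φ := algebraMap (MvPolynomial T ℂ) K
  have hne : ∀ i, φ (linF (ν i) (N i)) ≠ 0 := fun i h =>
    linF_ne (ν i) (hν i) (N i) (IsFractionRing.injective (MvPolynomial T ℂ) K (by
      rw [map_zero]; exact h))
  have h1 := hz (∑ J : Finset I, C ((χ J : ℤ) : ℂ) * ∏ i ∈ Jᶜ, linF (ν i) (N i))
    (∏ i, linF (ν i) (N i)) ?_
  · rw [map_prod] at h1
    obtain ⟨i, _, hi⟩ := Finset.prod_eq_zero_iff.1 h1
    rw [eval_linF] at hi
    exact ⟨i, hi⟩
  · rw [topM, Finset.sum_mul, map_sum]
    refine Finset.sum_congr rfl fun J _ => ?_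
    have h2 : φ (C ((χ J : ℤ) : ℂ)) = (χ J : K) := by
      rw [show (C ((χ J : ℤ) : ℂ) : MvPolynomial T ℂ) = ((χ J : ℤ) : MvPolynomial T ℂ) by
        rw [map_intCast], map_intCast]
    rw [map_mul, h2, mul_assoc]
    congr 1
    rw [← Finset.prod_mul_prod_compl J (fun i => linF (ν i) (N i)), map_mul, map_prod, ← mul_assoc,
      ← Finset.prod_mul_distrib, Finset.prod_congr rfl (fun i _ => inv_mul_cancel₀ (hne i)),
      Finset.prod_const_one, one_mul]

/-- The vectors of multiplicities of the tuple `(F_t)`: `m i t` along `E_i`, and the unit vectors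
along the strict transforms. -/
def mulT {I T : Type} [DecidableEq T] (m : I → T → ℕ) : I ⊕ T → T → ℕ :=
  Sum.elim m fun t => Pi.single t 1

section General

variable {σ T : Type} [Fintype σ] [DecidableEq σ] [Fintype T] [DecidableEq T] {κ : T → Type}
  [∀ t, Fintype (κ t)] [∀ t, DecidableEq (κ t)]

theorem Chart.IsRees.mono {g : (t : T) → κ t → MvPolynomial σ ℂ} {E : Chart g} {A B : T → Prop}
    (h : E.IsRees A) (hAB : ∀ t, A t → B t) : E.IsRees B := by
  obtain ⟨w, h1, h2, h3, h4⟩ := h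
  refine ⟨w, h1, h2, h3, fun t ht => ?_⟩
  rcases h4 t ht with h5 | ⟨s, hs, h5⟩
  · exact Or.inl h5
  · exact Or.inr ⟨s, hAB s hs, h5⟩

theorem tuple_roots {I : Type} [Fintype I] (g : (t : T) → κ t → MvPolynomial σ ℂ)
    (hg : ∀ t, ∃ j, g t j ≠ 0) (k : I → ℕ) (m : I → T → ℕ)
    (hE : ∀ i, 0 < ∑ t, m i t → ∃ E : Chart g, E.k = k i ∧ E.m = m i ∧ E.IsRees fun _ => True)
    (χ : Finset (I ⊕ T) → ℤ) (z : T → ℂ) (hz : z ∈ PolarLocus (topM (nuR k T) (mulT m) χ)) :
    ∃ x, ∑ t, (mulT m x t : ℂ) * z t + (nuR k T x : ℂ) = 0 ∧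
      ∀ n : T → ℕ, (∀ t, 0 < n t) → ∀ b : Polynomial ℂ, IsBFunction (powProd n g) b →
        b.eval (-(nuR k T x : ℂ) / ∑ t, (n t : ℂ) * (mulT m x t : ℂ)) = 0 := by
  obtain ⟨x, hx⟩ := polar_topM _ (nuR_pos k) _ χ z hz
  refine ⟨x, hx, fun n hn b hb => ?_⟩
  rcases x with i | t
  · have hpos : 0 < ∑ t, m i t := by
      rcases Nat.eq_zero_or_pos (∑ t, m i t) with h0 | h0
      · exfalso
        have h1 : ∀ t, m i t = 0 := fun t => (Finset.sum_eq_zero_iff.1 h0) t (Finset.mem_univ t)
        have h2 : ∑ t, (mulT m (Sum.inl i) t : ℂ) * z t = 0 :=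
          Finset.sum_eq_zero fun t _ => by
            change ((m i t : ℕ) : ℂ) * z t = 0
            rw [h1 t, Nat.cast_zero, zero_mul]
        rw [h2, zero_add] at hx
        have h3 := nuR_pos (T := T) k (Sum.inl i)
        exact h3.ne' (Nat.cast_eq_zero.1 hx)
      · exact h0
    obtain ⟨E, hk, hm, hR⟩ := hE i hpos
    have hpos' : 0 < ∑ t, n t * m i t := by
      obtain ⟨t, _, ht⟩ := Finset.exists_ne_zero_of_sum_ne_zero hpos.ne'
      exact lt_of_lt_of_le (Nat.mul_pos (hn t) (Nat.pos_of_ne_zero ht))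
        (Finset.single_le_sum (f := fun t => n t * m i t) (fun _ _ => Nat.zero_le _)
          (Finset.mem_univ t))
    have h := rees_global0 n g b hb (k i) (m i) ⟨E, hk, hm, hR.mono fun t _ => (hn t).ne'⟩ hpos'
    push_cast at h
    change b.eval (-(((k i + 1 : ℕ) : ℂ)) / ∑ t, (n t : ℂ) * (m i t : ℂ)) = 0
    push_cast
    exact h
  · have h := (powData_global n g hg b hb).strict t 0 (hn t)
    rw [Nat.cast_zero, add_zero] at h
    have h1 : ∑ t', (n t' : ℂ) * (mulT m (Sum.inr t) t' : ℂ) = n t := by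
      rw [Finset.sum_eq_single t]
      · change (n t : ℂ) * ((Pi.single t 1 : T → ℕ) t : ℂ) = n t
        rw [Pi.single_eq_same, Nat.cast_one, mul_one]
      · intro t' _ ht'
        change (n t' : ℂ) * ((Pi.single t 1 : T → ℕ) t' : ℂ) = 0
        rw [Pi.single_eq_of_ne ht', Nat.cast_zero, mul_zero]
      · intro h; exact absurd (Finset.mem_univ _) h
    rw [h1]
    change b.eval (-((1 : ℕ) : ℂ) / n t) = 0
    rw [Nat.cast_one]
    exact h

end General

section Arr

variable {σ S T I : Type} [Fintype σ] [DecidableEq σ] [Fintype S] [DecidableEq S] [Fintype T]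
  [DecidableEq T] [Fintype I] {κ : S → Type} [∀ s, Fintype (κ s)] [∀ s, DecidableEq (κ s)]

/-- The vectors of multiplicities for products of ideals of linear subspaces: `∑ e t s`, over the
`s` with `G ⊆ H s`, along `E_G`, and the unit vectors along the strict transforms. -/
noncomputable def mulS {V S I T : Type} [AddCommGroup V] [Module ℂ V] [Fintype S] [DecidableEq T]
    (H : S → Submodule ℂ V) (e : T → S → ℕ) (G : I → Submodule ℂ V) : I ⊕ T → T → ℕ :=
  Sum.elim (fun i t => mult H (e t) (G i)) fun t => Pi.single t 1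

theorem arr_tuple (c : (s : S) → κ s → σ → ℂ) (hc : ∀ s, ∃ j, c s j ≠ 0) (e : T → S → ℕ)
    (G : I → Submodule ℂ (σ → ℂ))
    (hG : ∀ i, IsReesFlat (fun s => zeros (c s)) (fun s => ∃ t, e t s ≠ 0) (G i))
    (χ : Finset (I ⊕ T) → ℤ) (z : T → ℂ)
    (hz : z ∈ PolarLocus (topM (nuA G T) (mulS (fun s => zeros (c s)) e G) χ)) :
    ∃ x, ∑ t, (mulS (fun s => zeros (c s)) e G x t : ℂ) * z t + (nuA G T x : ℂ) = 0 ∧
      ∀ n : T → ℕ, (∀ t, 0 < n t) → ∀ b : Polynomial ℂ,
        IsBFunction (powProd n fun t => arrGen c (e t)) b →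
        b.eval (-(nuA G T x : ℂ) / ∑ t, (n t : ℂ) * (mulS (fun s => zeros (c s)) e G x t : ℂ))
          = 0 := by
  obtain ⟨x, hx⟩ := polar_topM _ (nuA_pos G hG) _ χ z hz
  refine ⟨x, hx, fun n hn b hb => ?_⟩
  have hG' : ∀ i, IsReesFlat (fun s => zeros (c s)) (Occurs e n) (G i) := by
    intro i
    have h1 : Occurs e n = fun s => ∃ t, e t s ≠ 0 := by
      funext s
      apply propext
      exact ⟨fun ⟨t, _, h⟩ => ⟨t, h⟩, fun ⟨t, h⟩ => ⟨t, (hn t).ne', h⟩⟩
    rw [h1]
    exact hG i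
  have hmul : mulA (fun s => zeros (c s)) e n G x
      = ∑ t, n t * mulS (fun s => zeros (c s)) e G x t := by
    rcases x with i | t
    · rfl
    · change n t = ∑ t', n t' * (Pi.single t 1 : T → ℕ) t'
      rw [Finset.sum_eq_single t]
      · rw [Pi.single_eq_same, mul_one]
      · intro t' _ ht'
        rw [Pi.single_eq_of_ne ht', mul_zero]
      · intro h; exact absurd (Finset.mem_univ _) h
  have hpos : 0 < mulA (fun s => zeros (c s)) e n G x := by
    rcases Nat.eq_zero_or_pos (mulA (fun s => zeros (c s)) e n G x) with h0 | h0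
    · exfalso
      rw [hmul] at h0
      have h1 : ∀ t, mulS (fun s => zeros (c s)) e G x t = 0 := fun t =>
        (Nat.mul_eq_zero.1 ((Finset.sum_eq_zero_iff.1 h0) t (Finset.mem_univ t))).resolve_left
          (hn t).ne'
      have h2 : ∑ t, (mulS (fun s => zeros (c s)) e G x t : ℂ) * z t = 0 :=
        Finset.sum_eq_zero fun t _ => by rw [h1 t, Nat.cast_zero, zero_mul]
      rw [h2, zero_add] at hx
      exact (nuA_pos G hG x).ne' (Nat.cast_eq_zero.1 hx)
    · exact h0
  have h := pow_arr c e n G hG' b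
    (powData_global n _ (fun t => arrGen_ne c hc (e t)) b hb) x 0 hpos
  rw [Nat.cast_zero, add_zero, hmul] at h
  push_cast at h
  exact h

end Arr

end Pool.Agent.Y231.RF
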